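import Pool.Agent.Lib_helper65.PropB.Upper2

/-!
Blow-up: replacing vertices by blocks of size `t` (one of them of size `r` only).
-/

namespace Pool.Agent.PropB65

open Finset

/-- blow-up of `G`: each vertex `v` becomes the block `[vt, vt+t)`, except the top vertex, which
becomes `[vt, vt+r)`. -/
def bl (t r : ℕ) (G : Finset ℕ) : Finset ℕ :=
  G.biUnion (fun v => Ico (v * t) (v * t + if v = G.sup id then r else t))

theorem div_of_mem {t r v x : ℕ} {P : Prop} [Decidable P] (hrt : r ≤ t)
    (hx : x ∈ Ico (v * t) (v * t + if P then r else t)) : x / t = v := by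
  rw [mem_Ico] at hx
  have h : (if P then r else t) ≤ t := by split_ifs <;> omega
  have ht : 0 < t := by omega
  rw [Nat.div_eq_iff ht]
  constructor
  · exact hx.1
  · omega

theorem sup_mem_self {G : Finset ℕ} (hG : G.Nonempty) : G.sup id ∈ G := by
  obtain ⟨x, hx, h⟩ := Finset.exists_mem_eq_sup G hG id
  rw [h]; exact hx

theorem bl_card {t r n₀ : ℕ} {G : Finset ℕ} (hrt : r ≤ t) (hG : G.card = n₀ + 1) :
    (bl t r G).card = n₀ * t + r := by
  have hne : G.Nonempty := card_pos.1 (by omega)
  unfold bl
  rw [card_biUnion]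
  · simp only [Nat.card_Ico, Nat.add_sub_cancel_left]
    rw [← add_sum_erase G _ (sup_mem_self hne)]
    rw [if_pos rfl]
    have : ∑ x ∈ G.erase (G.sup id), (if x = G.sup id then r else t)
        = ∑ _x ∈ G.erase (G.sup id), t := by
      apply sum_congr rfl
      intro x hx
      rw [if_neg (ne_of_mem_erase hx)]
    rw [this, sum_const, card_erase_of_mem (sup_mem_self hne), hG]
    simp only [smul_eq_mul, Nat.add_sub_cancel]
    omega
  · intro v _ w _ hvw
    rw [Function.onFun, disjoint_left]
    intro x hx hx'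
    exact hvw ((div_of_mem hrt hx).symm.trans (div_of_mem hrt hx'))

theorem blow {s t r n₀ : ℕ} (hr : 1 ≤ r) (hrt : r ≤ t) {𝒢 : Finset (Finset ℕ)}
    (hG : ∀ G ∈ 𝒢, G.card = n₀ + 1) (hB : ¬ HasB (s + 1) 𝒢) :
    ∃ F : Finset (Finset ℕ), (∀ A ∈ F, A.card = n₀ * t + r) ∧ ¬ HasB s F ∧ F.card ≤ 𝒢.card := by
  classical
  refine ⟨𝒢.image (bl t r), ?_, ?_, card_image_le⟩
  · intro A hA
    rw [mem_image] at hA
    obtain ⟨G, hG', rfl⟩ := hA
    exact bl_card hrt (hG G hG')
  · rintro ⟨S, -, hS⟩
    apply hB
    refine ⟨(S.image (fun x => x / t)).filter (fun v => v ∈ 𝒢.sup id), ?_, ?_⟩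
    · intro v hv
      exact (mem_filter.1 hv).2
    · intro G hG'
      have h1 := hS (bl t r G) (mem_image_of_mem _ hG')
      have hsub : G ⊆ 𝒢.sup id := by
        intro v hv
        rw [mem_sup]
        exact ⟨G, hG', hv⟩
      constructor
      · obtain ⟨x, hx⟩ := card_pos.1 h1.1
        rw [mem_inter] at hx
        obtain ⟨hx1, hx2⟩ := hx
        unfold bl at hx1
        rw [mem_biUnion] at hx1
        obtain ⟨v, hv, hxv⟩ := hx1
        have hd := div_of_mem hrt hxv
        apply card_pos.2
        refine ⟨v, ?_⟩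
        rw [mem_inter, mem_filter, mem_image]
        exact ⟨hv, ⟨x, hx2, hd⟩, hsub hv⟩
      · set S' := (S.image (fun x => x / t)).filter (fun v => v ∈ 𝒢.sup id) with hS'
        have h2 : ((G ∩ S').erase (G.sup id)) ⊆ (bl t r G ∩ S).image (fun x => x / t) := by
          intro v hv
          rw [mem_erase, mem_inter, hS', mem_filter, mem_image] at hv
          obtain ⟨hne, hvG, ⟨x, hx, hxv⟩, -⟩ := hv
          rw [mem_image]
          refine ⟨x, ?_, hxv⟩
          rw [mem_inter]
          refine ⟨?_, hx⟩
          unfold bl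
          rw [mem_biUnion]
          refine ⟨v, hvG, ?_⟩
          rw [if_neg hne, mem_Ico]
          have ht : 0 < t := by omega
          rw [Nat.div_eq_iff ht] at hxv
          omega
        have h3 : (G ∩ S').card ≤ ((G ∩ S').erase (G.sup id)).card + 1 := by
          have := pred_card_le_card_erase (s := G ∩ S') (a := G.sup id)
          omega
        have h4 := card_le_card h2
        have h5 : ((bl t r G ∩ S).image (fun x => x / t)).card ≤ (bl t r G ∩ S).card := card_image_le
        omega

end Pool.Agent.PropB65
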