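import Pool.Agent.Lib_helper65.PropB.Defs

/-!
A greedy covering lemma.
-/

namespace Pool.Agent.PropB65

open Finset

theorem cover {α β : Type*} [DecidableEq α] [DecidableEq β] (X : Finset α) (Y : Finset β)
    (R : α → β → Prop) [∀ a b, Decidable (R a b)] {q : ℝ} (hY : Y.Nonempty) (hq1 : q ≤ 1)
    (h : ∀ x ∈ X, q * Y.card ≤ ((Y.filter (R x)).card : ℝ)) (M : ℕ) :
    ∃ Y' ⊆ Y, Y'.card ≤ M ∧
      ((X.filter (fun x => ∀ y ∈ Y', ¬ R x y)).card : ℝ) ≤ (1 - q) ^ M * X.card := by
  induction M with
  | zero =>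
    refine ⟨∅, empty_subset _, by simp, ?_⟩
    simp
  | succ M ih =>
    obtain ⟨Y', hY', hcard, hle⟩ := ih
    set X' := X.filter (fun x => ∀ y ∈ Y', ¬ R x y) with hX'
    have hdouble : q * Y.card * X'.card ≤ ∑ y ∈ Y, ((X'.filter (fun x => R x y)).card : ℝ) := by
      have h1 : ∑ y ∈ Y, ((X'.filter (fun x => R x y)).card : ℝ)
          = ∑ x ∈ X', ((Y.filter (R x)).card : ℝ) := by
        have := Finset.sum_card_bipartiteAbove_eq_sum_card_bipartiteBelow (s := X') (t := Y) R
        simp only [bipartiteAbove, bipartiteBelow] at this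
        exact_mod_cast this.symm
      rw [h1]
      have h2 : (X'.card : ℝ) * (q * Y.card) ≤ ∑ x ∈ X', ((Y.filter (R x)).card : ℝ) := by
        rw [← nsmul_eq_mul]
        apply Finset.card_nsmul_le_sum
        intro x hx
        exact h x (mem_filter.1 hx).1
      linarith
    obtain ⟨y, hy, hy2⟩ : ∃ y ∈ Y, q * X'.card ≤ ((X'.filter (fun x => R x y)).card : ℝ) := by
      by_contra hcon
      push Not at hcon
      have h3 : ∑ y ∈ Y, ((X'.filter (fun x => R x y)).card : ℝ) < ∑ _y ∈ Y, q * X'.card :=
        Finset.sum_lt_sum_of_nonempty hY (fun y hy => hcon y hy)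
      rw [Finset.sum_const, nsmul_eq_mul] at h3
      linarith
    refine ⟨insert y Y', ?_, ?_, ?_⟩
    · intro z hz
      rcases mem_insert.1 hz with rfl | hz
      · exact hy
      · exact hY' hz
    · exact (card_insert_le _ _).trans (by omega)
    · have h4 : X.filter (fun x => ∀ z ∈ insert y Y', ¬ R x z) = X'.filter (fun x => ¬ R x y) := by
        ext x
        simp only [mem_filter, mem_insert, forall_eq_or_imp, hX']
        tauto
      rw [h4]
      have h5 : ((X'.filter (fun x => R x y)).card : ℝ) + ((X'.filter (fun x => ¬ R x y)).card : ℝ)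
          = X'.card := by
        exact_mod_cast Finset.card_filter_add_card_filter_not (s := X') (fun x => R x y)
      calc ((X'.filter (fun x => ¬ R x y)).card : ℝ) ≤ (1 - q) * X'.card := by linarith
        _ ≤ (1 - q) * ((1 - q) ^ M * X.card) := by
            have : 0 ≤ 1 - q := by linarith
            gcongr
        _ = _ := by ring

end Pool.Agent.PropB65
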