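import Mathlib

/-!
Definitions for MP_9a3d30_co: property `B(s)`, the function `m(n,s)`, and the growth function
`W(n,s)`.
-/

namespace Pool.Agent.PropB65

/-- Property `B(s)`: there is a set `S` of vertices (the vertex set is the union of the edges)
with `0 < |A ∩ S| < s` for every edge `A`. -/
def HasB (s : ℕ) (F : Finset (Finset ℕ)) : Prop :=
  ∃ S : Finset ℕ, S ⊆ F.sup id ∧ ∀ A ∈ F, 0 < (A ∩ S).card ∧ (A ∩ S).card < s

/-- `m(n,s)`: the least number of edges of a family of `n`-sets without property `B(s)`. -/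
noncomputable def m (n s : ℕ) : ℕ :=
  sInf {k | ∃ F : Finset (Finset ℕ), F.card = k ∧ (∀ A ∈ F, A.card = n) ∧ ¬ HasB s F}

/-- `ω(n,s) = (s/n) (1 - s/n)^((n-s)/s)` -/
noncomputable def om (n s : ℕ) : ℝ :=
  ((s : ℝ) / n) * (1 - (s : ℝ) / n) ^ (((n : ℝ) - s) / s)

/-- `W(n,s) = (1 + ω(n,s))^n` -/
noncomputable def W (n s : ℕ) : ℝ := (1 + om n s) ^ n

end Pool.Agent.PropB65
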