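import Pool.Agent.Lib_helper65.PropB.Blow

/-!
The growth theorem: `W/2 ≤ m(n,s) ≤ C s^6 W`.
-/

namespace Pool.Agent.PropB65

open Finset

theorem m_le {n s : ℕ} {F : Finset (Finset ℕ)} (h1 : ∀ A ∈ F, A.card = n) (h2 : ¬ HasB s F) :
    m n s ≤ F.card := Nat.sInf_le ⟨F, rfl, h1, h2⟩

theorem m_spec {n s : ℕ} (hn : 2 ≤ n) (hs1 : 1 ≤ s) (hs : s ≤ n) :
    ∃ F : Finset (Finset ℕ), F.card = m n s ∧ (∀ A ∈ F, A.card = n) ∧ ¬ HasB s F := by
  have hne : {k | ∃ F : Finset (Finset ℕ), F.card = k ∧ (∀ A ∈ F, A.card = n) ∧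
      ¬ HasB s F}.Nonempty := by
    obtain ⟨F, h1, h2, -⟩ := exists_family hn hs1 hs
    exact ⟨F.card, F, rfl, h1, h2⟩
  exact Nat.sInf_mem hne

theorem m_lower {n s : ℕ} (hn : 2 ≤ n) (hs1 : 1 ≤ s) (hs : s ≤ n) : W n s / 2 ≤ m n s := by
  obtain ⟨F, h1, h2, h3⟩ := m_spec hn hs1 hs
  rw [← h1]
  exact lower_bound hs1 hs h2 h3

theorem m_upper {n s : ℕ} (hn : 2 ≤ n) (hs1 : 1 ≤ s) (hs : s ≤ n) :
    (m n s : ℝ) ≤ 65 * (n : ℝ) ^ 3 * W n s := by
  obtain ⟨F, h1, h2, h3⟩ := exists_family hn hs1 hs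
  refine le_trans ?_ h3
  exact_mod_cast m_le h1 h2

/-- `W ≤ exp(n ω)` -/
theorem W_le_exp {n s : ℕ} (hs : s ≤ n) : W n s ≤ Real.exp (n * om n s) := by
  unfold W
  rw [Real.exp_nat_mul]
  apply pow_le_pow_left₀
  · have := om_nonneg hs; linarith
  · have := Real.add_one_le_exp (om n s); linarith

theorem exp_neg_one_le : Real.exp (-1) ≤ 1 / 2 := by
  rw [Real.exp_neg, ← one_div]
  apply one_div_le_one_div_of_le (by norm_num)
  have := Real.exp_one_gt_d9; linarith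

/-- For `n' ≥ s^2` we have `W(n',s+1) ≤ e^3 e^{s/e}`. -/
theorem W_upper_large {n' s s' : ℕ} (hs : 2 ≤ s) (h1 : s ^ 2 ≤ n') (h2 : s' ≤ n')
    (hs1 : 1 ≤ s') (hs' : s' ≤ s + 1) :
    W n' s' ≤ Real.exp (3 + s * Real.exp (-1)) := by
  refine (W_le_exp h2).trans ?_
  apply Real.exp_le_exp.2
  have hn0 : (0 : ℝ) < n' := by exact_mod_cast (by omega : 0 < n')
  have hs0 : (2 : ℝ) ≤ s := by exact_mod_cast hs
  have h := om_le (n := n') (s := s') hs1 h2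
  have h1' : (s : ℝ) ^ 2 ≤ n' := by exact_mod_cast h1
  have h2' : (s' : ℝ) ≤ n' := by exact_mod_cast h2
  have hs'' : (s' : ℝ) ≤ s + 1 := by exact_mod_cast hs'
  set a : ℝ := (s' : ℝ) / n' with ha
  have ha0 : 0 ≤ a := by positivity
  have ha1 : a ≤ 1 := by rw [ha, div_le_one hn0]; exact h2'
  have hea : Real.exp a ≤ 1 + 2 * a := by
    have := Real.abs_exp_sub_one_sub_id_le (x := a) (by rw [abs_of_nonneg ha0]; exact ha1)
    have h3 := (abs_le.1 this).2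
    nlinarith
  have hE0 := Real.exp_pos (-1)
  have hE := exp_neg_one_le
  have hna : (n' : ℝ) * a = s' := by rw [ha]; field_simp
  have hsa : ((s : ℝ) + 1) * a ≤ 9 / 4 := by
    rw [ha, ← mul_div_assoc, div_le_iff₀ hn0]
    nlinarith
  calc (n' : ℝ) * om n' s' ≤ n' * (a * Real.exp (-1 + a)) := by gcongr
    _ = s' * (Real.exp (-1) * Real.exp a) := by rw [← mul_assoc, hna, Real.exp_add]
    _ ≤ (s + 1) * (Real.exp (-1) * (1 + 2 * a)) := by gcongr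
    _ = s * Real.exp (-1) + Real.exp (-1) + 2 * Real.exp (-1) * ((s + 1) * a) := by ring
    _ ≤ s * Real.exp (-1) + Real.exp (-1) + 2 * Real.exp (-1) * (9 / 4) := by gcongr
    _ ≤ 3 + s * Real.exp (-1) := by linarith

/-- For `n ≥ s^2` we have `W(n,s) ≥ e^{s/e - 1}`. -/
theorem W_lower_large {n s : ℕ} (hs1 : 1 ≤ s) (hs : s ≤ n) (h : s ^ 2 ≤ n) :
    Real.exp (s * Real.exp (-1) - 1) ≤ W n s := by
  have hn0 : (0 : ℝ) < n := by exact_mod_cast (by omega : 0 < n)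
  have hs0 : (0 : ℝ) < s := by exact_mod_cast hs1
  have h' : (s : ℝ) ^ 2 ≤ n := by exact_mod_cast h
  have hE0 := Real.exp_pos (-1)
  have hE := exp_neg_one_le
  set y : ℝ := (s : ℝ) / n * Real.exp (-1) with hy
  have hy0 : 0 < y := by positivity
  have h1 : (1 + y) ^ n ≤ W n s := by
    unfold W
    apply pow_le_pow_left₀ (by linarith)
    have := om_ge hs1 hs
    linarith
  refine le_trans ?_ h1
  have h1y : 0 < 1 + y := by linarith
  have h2 := Real.one_sub_inv_le_log_of_pos h1y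
  have h3 : y - y ^ 2 ≤ 1 - (1 + y)⁻¹ := by
    have : 1 - (1 + y)⁻¹ = y / (1 + y) := by field_simp; ring
    rw [this, le_div_iff₀ h1y]
    nlinarith [pow_pos hy0 3]
  rw [← Real.exp_log h1y, ← Real.exp_nat_mul]
  apply Real.exp_le_exp.2
  have h4 : (n : ℝ) * y = s * Real.exp (-1) := by rw [hy]; field_simp
  have h5 : (n : ℝ) * y ^ 2 ≤ 1 := by
    have : (n : ℝ) * y ^ 2 = (s : ℝ) ^ 2 / n * (Real.exp (-1)) ^ 2 := by
      rw [hy]; field_simp
    rw [this]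
    have h6 : (s : ℝ) ^ 2 / n ≤ 1 := by rw [div_le_one hn0]; exact h'
    have h7 : (Real.exp (-1)) ^ 2 ≤ 1 := by nlinarith
    have h8 : 0 ≤ (s : ℝ) ^ 2 / n := by positivity
    nlinarith
  calc s * Real.exp (-1) - 1 ≤ n * y - n * y ^ 2 := by linarith
    _ = n * (y - y ^ 2) := by ring
    _ ≤ n * Real.log (1 + y) := by
        apply mul_le_mul_of_nonneg_left _ hn0.le
        linarith

theorem m_upper' {n s : ℕ} (hs2 : 2 ≤ s) (hs : s ≤ n) :
    (m n s : ℝ) ≤ 30000 * (s : ℝ) ^ 6 * W n s ∧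
    (s ^ 2 ≤ n → (m n s : ℝ) ≤ 30000 * (s : ℝ) ^ 6 * Real.exp (s * Real.exp (-1))) := by
  have hs0 : (2 : ℝ) ≤ s := by exact_mod_cast hs2
  have he4 : Real.exp 4 ≤ 55 := by
    have h6 := Real.exp_one_lt_d9
    have h7 : Real.exp 4 = Real.exp 1 ^ 4 := by
      rw [← Real.exp_nat_mul]; norm_num
    rw [h7]
    calc Real.exp 1 ^ 4 ≤ 2.7182818286 ^ 4 := by gcongr
      _ ≤ 55 := by norm_num
  have he3 : Real.exp 3 ≤ 55 := by
    refine le_trans ?_ he4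
    exact Real.exp_le_exp.2 (by norm_num)
  have hexp : Real.exp (3 + s * Real.exp (-1)) = Real.exp 4 * Real.exp (s * Real.exp (-1) - 1) := by
    rw [← Real.exp_add]; congr 1; ring
  have hexp3 : Real.exp (3 + s * Real.exp (-1)) = Real.exp 3 * Real.exp (s * Real.exp (-1)) := by
    rw [← Real.exp_add]
  rcases le_or_gt n (s ^ 2) with h | h
  · have h1 := m_upper (n := n) (s := s) (by omega) (by omega) hs
    have hW := one_le_W (n := n) (s := s) hs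
    have h2 : (n : ℝ) ^ 3 ≤ (s : ℝ) ^ 6 := by
      have h3 : (n : ℝ) ≤ (s : ℝ) ^ 2 := by exact_mod_cast h
      calc (n : ℝ) ^ 3 ≤ ((s : ℝ) ^ 2) ^ 3 := by gcongr
        _ = (s : ℝ) ^ 6 := by ring
    refine ⟨?_, fun h4 => ?_⟩
    · calc (m n s : ℝ) ≤ 65 * (n : ℝ) ^ 3 * W n s := h1
        _ ≤ 30000 * (s : ℝ) ^ 6 * W n s := by gcongr; norm_num
    · have h5 := W_upper_large hs2 h4 hs (by omega) (Nat.le_succ s)
      rw [hexp3] at h5
      calc (m n s : ℝ) ≤ 65 * (n : ℝ) ^ 3 * W n s := h1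
        _ ≤ 65 * (s : ℝ) ^ 6 * (Real.exp 3 * Real.exp (s * Real.exp (-1))) := by gcongr
        _ ≤ 65 * (s : ℝ) ^ 6 * (55 * Real.exp (s * Real.exp (-1))) := by
            gcongr
        _ ≤ 30000 * (s : ℝ) ^ 6 * Real.exp (s * Real.exp (-1)) := by
            have : 0 ≤ (s : ℝ) ^ 6 * Real.exp (s * Real.exp (-1)) := by positivity
            nlinarith
  · -- blow-up
    obtain ⟨t, ht⟩ : ∃ t, t = n / s ^ 2 := ⟨_, rfl⟩
    have hs4 : 4 ≤ s ^ 2 := by nlinarith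
    have ht1 : 1 ≤ t := by
      rw [ht]; exact (Nat.one_le_div_iff (by omega)).2 h.le
    have hle : t * s ^ 2 ≤ n := by rw [ht]; exact Nat.div_mul_le_self _ _
    have hlt : n < (t + 1) * s ^ 2 := by
      rw [ht]
      have := Nat.lt_mul_div_succ n (by omega : 0 < s ^ 2)
      rw [mul_comm]
      exact this
    obtain ⟨n₀, hn₀⟩ : ∃ n₀, n₀ = (n - 1) / t := ⟨_, rfl⟩
    obtain ⟨r, hr⟩ : ∃ r, r = (n - 1) % t + 1 := ⟨_, rfl⟩
    have hr1 : 1 ≤ r := by omega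
    have hrt : r ≤ t := by
      have := Nat.mod_lt (n - 1) (by omega : 0 < t)
      omega
    have hdecomp : n₀ * t + r = n := by
      have := Nat.div_add_mod (n - 1) t
      rw [hn₀, hr, mul_comm]
      omega
    have hge : s ^ 2 ≤ n₀ + 1 := by
      have : s ^ 2 - 1 ≤ n₀ := by
        rw [hn₀, Nat.le_div_iff_mul_le (by omega)]
        have h2 : (s ^ 2 - 1) * t = t * s ^ 2 - t := by
          rw [Nat.sub_mul, one_mul, mul_comm]
        omega
      omega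
    have hlt2 : n₀ + 1 ≤ 2 * s ^ 2 := by
      have : n₀ < 2 * s ^ 2 := by
        rw [hn₀, Nat.div_lt_iff_lt_mul (by omega)]
        have h2 : (t + 1) * s ^ 2 ≤ 2 * s ^ 2 * t := by nlinarith
        omega
      omega
    have hsn : s + 1 ≤ n₀ + 1 := by
      have : s + 1 ≤ s ^ 2 := by nlinarith
      omega
    obtain ⟨G, hG1, hG2, hG3⟩ := exists_family (n := n₀ + 1) (s := s + 1) (by omega) (by omega) hsn
    obtain ⟨F, hF1, hF2, hF3⟩ := blow hr1 hrt hG1 hG2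
    rw [hdecomp] at hF1
    have h3 := m_le hF1 hF2
    have hWl := W_lower_large (by omega) hs h.le
    have hWu := W_upper_large hs2 hge hsn (by omega) le_rfl
    have hW'0 : 0 ≤ W (n₀ + 1) (s + 1) := zero_le_one.trans (one_le_W hsn)
    have h4 : ((n₀ + 1 : ℕ) : ℝ) ^ 3 ≤ 8 * (s : ℝ) ^ 6 := by
      have h5 : ((n₀ + 1 : ℕ) : ℝ) ≤ 2 * (s : ℝ) ^ 2 := by exact_mod_cast hlt2
      calc ((n₀ + 1 : ℕ) : ℝ) ^ 3 ≤ (2 * (s : ℝ) ^ 2) ^ 3 := by gcongr
        _ = 8 * (s : ℝ) ^ 6 := by ring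
    have hW0 : 0 < W n s := lt_of_lt_of_le (Real.exp_pos _) hWl
    have h8 : (m n s : ℝ) ≤ 65 * (8 * (s : ℝ) ^ 6) * Real.exp (3 + s * Real.exp (-1)) := by
      calc (m n s : ℝ) ≤ (F.card : ℝ) := by exact_mod_cast h3
        _ ≤ (G.card : ℝ) := by exact_mod_cast hF3
        _ ≤ 65 * ((n₀ + 1 : ℕ) : ℝ) ^ 3 * W (n₀ + 1) (s + 1) := hG3
        _ ≤ 65 * (8 * (s : ℝ) ^ 6) * Real.exp (3 + s * Real.exp (-1)) := by gcongr
    refine ⟨?_, fun _ => ?_⟩
    · calc (m n s : ℝ) ≤ 65 * (8 * (s : ℝ) ^ 6) * Real.exp (3 + s * Real.exp (-1)) := h8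
        _ = 65 * (8 * (s : ℝ) ^ 6) * (Real.exp 4 * Real.exp (s * Real.exp (-1) - 1)) := by
            rw [hexp]
        _ ≤ 65 * (8 * (s : ℝ) ^ 6) * (55 * W n s) := by gcongr
        _ ≤ 30000 * (s : ℝ) ^ 6 * W n s := by
            have : 0 ≤ (s : ℝ) ^ 6 * W n s := by positivity
            nlinarith
    · rw [hexp3] at h8
      calc (m n s : ℝ)
          ≤ 65 * (8 * (s : ℝ) ^ 6) * (Real.exp 3 * Real.exp (s * Real.exp (-1))) := h8
        _ ≤ 65 * (8 * (s : ℝ) ^ 6) * (55 * Real.exp (s * Real.exp (-1))) := by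
            gcongr
        _ ≤ 30000 * (s : ℝ) ^ 6 * Real.exp (s * Real.exp (-1)) := by
            have : 0 ≤ (s : ℝ) ^ 6 * Real.exp (s * Real.exp (-1)) := by positivity
            nlinarith

/-- Growth of `m(n,s)` up to a factor polynomial in `s`, uniformly in `n`. -/
theorem growth {n s : ℕ} (hs2 : 2 ≤ s) (hs : s ≤ n) :
    (W n s / 2 ≤ m n s ∧ (m n s : ℝ) ≤ 30000 * (s : ℝ) ^ 6 * W n s) ∧
    (s ^ 2 ≤ n → Real.exp (s * Real.exp (-1)) / 6 ≤ m n s ∧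
      (m n s : ℝ) ≤ 30000 * (s : ℝ) ^ 6 * Real.exp (s * Real.exp (-1))) := by
  have h1 := m_lower (n := n) (s := s) (by omega) (by omega) hs
  have h2 := m_upper' hs2 hs
  refine ⟨⟨h1, h2.1⟩, fun h => ⟨?_, h2.2 h⟩⟩
  have h3 := W_lower_large (by omega) hs h
  refine le_trans ?_ h1
  have h4 : Real.exp (s * Real.exp (-1)) / 6 ≤ Real.exp (s * Real.exp (-1) - 1) / 2 := by
    have h5 : Real.exp (s * Real.exp (-1)) = Real.exp (s * Real.exp (-1) - 1) * Real.exp 1 := by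
      rw [← Real.exp_add]; congr 1; ring
    rw [h5]
    have h6 := Real.exp_one_lt_d9
    have h7 := Real.exp_pos (s * Real.exp (-1) - 1)
    nlinarith
  linarith

end Pool.Agent.PropB65
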