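import Pool.Agent.Lib_helper65.PropB.Defs

/-!
The lower bound for `m(n,s)`.
-/

namespace Pool.Agent.PropB65

open Finset

/-- weighted count of the sets `S ⊆ V` -/
theorem sum_weight (V A : Finset ℕ) (hA : A ⊆ V) (x y : ℝ) :
    ∑ S ∈ V.powerset, ∏ i ∈ S, (if i ∈ A then x else y)
      = (1 + x) ^ A.card * (1 + y) ^ (V.card - A.card) := by
  rw [← Finset.prod_one_add]
  have h1 : ∀ i ∈ V, 1 + (if i ∈ A then x else y) = if i ∈ A then 1 + x else 1 + y := by
    intro i _; split_ifs <;> rfl
  rw [Finset.prod_congr rfl h1, Finset.prod_ite, Finset.prod_const, Finset.prod_const]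
  have h2 : V.filter (· ∈ A) = A := by
    ext i; simp only [mem_filter]; exact ⟨fun h => h.2, fun h => ⟨hA h, h⟩⟩
  have h3 : V.filter (¬ · ∈ A) = V \ A := by
    ext i; simp [mem_sdiff]
  rw [h2, h3, card_sdiff_of_subset hA]

theorem prod_weight (S A : Finset ℕ) (x y : ℝ) :
    ∏ i ∈ S, (if i ∈ A then x else y) = x ^ (A ∩ S).card * y ^ (S \ A).card := by
  rw [Finset.prod_ite, Finset.prod_const, Finset.prod_const]
  congr 2
  · congr 1; ext i; simp [mem_inter, and_comm]
  · congr 1; ext i; simp [mem_sdiff]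

theorem om_nonneg {n s : ℕ} (hs : s ≤ n) : 0 ≤ om n s := by
  unfold om
  have h1 : (s : ℝ) / n ≤ 1 := div_le_one_of_le₀ (by exact_mod_cast hs) (by positivity)
  have h2 : 0 ≤ 1 - (s : ℝ) / n := by linarith
  positivity

/-- Abstract lower bound: if for `z ≥ 1`, `z^(-s) (1 + ω z)^n ≤ 1` ... -/
theorem lower_of {n s : ℕ} {F : Finset (Finset ℕ)} (hF : ∀ A ∈ F, A.card = n)
    (hB : ¬ HasB s F) {w : ℝ} (hw : 0 < w)
    (htail : ∀ V A : Finset ℕ, A ⊆ V → A.card = n →
      ∑ S ∈ V.powerset with s ≤ (A ∩ S).card, w ^ S.card ≤ (1 + w) ^ (V.card - n)) :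
    (1 + w) ^ n / 2 ≤ F.card := by
  set V := F.sup id with hV
  have hAV : ∀ A ∈ F, A ⊆ V := fun A hA => Finset.le_sup (f := id) hA
  have hnV : F.Nonempty → n ≤ V.card := by
    rintro ⟨A, hA⟩
    rw [← hF A hA]; exact card_le_card (hAV A hA)
  have hFne : F.Nonempty := by
    by_contra h
    rw [not_nonempty_iff_eq_empty] at h
    exact hB ⟨∅, by simp, by simp [h]⟩
  have hn := hnV hFne
  -- zero part
  have hzero : ∀ A ∈ F, ∑ S ∈ V.powerset with (A ∩ S).card = 0, w ^ S.card
      ≤ (1 + w) ^ (V.card - n) := by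
    intro A hA
    have h1 := sum_weight V A (hAV A hA) 0 w
    rw [hF A hA, add_zero, one_pow, one_mul] at h1
    rw [← h1, Finset.sum_filter]
    apply Finset.sum_le_sum
    intro S _
    rw [prod_weight]
    split_ifs with h
    · rw [h, pow_zero, one_mul]
      have h2 : (S \ A).card = S.card := by
        congr 1
        rw [Finset.sdiff_eq_self_iff_disjoint, Finset.disjoint_iff_inter_eq_empty, inter_comm]
        exact card_eq_zero.1 h
      rw [h2]
    · positivity
  have hsum : ∑ S ∈ V.powerset, w ^ S.card = (1 + w) ^ V.card := by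
    have h1 := sum_weight V ∅ (empty_subset _) 0 w
    simp only [notMem_empty, if_false, prod_const, card_empty, pow_zero, one_mul, Nat.sub_zero]
      at h1
    exact h1
  have hcover : ∑ S ∈ V.powerset, w ^ S.card ≤ ∑ A ∈ F,
      (∑ S ∈ V.powerset with (A ∩ S).card = 0, w ^ S.card
        + ∑ S ∈ V.powerset with s ≤ (A ∩ S).card, w ^ S.card) := by
    simp_rw [Finset.sum_filter, ← Finset.sum_add_distrib]
    rw [Finset.sum_comm]
    apply Finset.sum_le_sum
    intro S hS
    have hex : ∃ A ∈ F, ¬ (0 < (A ∩ S).card ∧ (A ∩ S).card < s) := by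
      by_contra hcon
      push Not at hcon
      exact hB ⟨S, mem_powerset.1 hS, fun A hA => hcon A hA⟩
    obtain ⟨A, hA, hbad⟩ := hex
    have hnn : ∀ A ∈ F, 0 ≤ (if (A ∩ S).card = 0 then w ^ S.card else 0)
        + (if s ≤ (A ∩ S).card then w ^ S.card else 0) := by
      intro A _
      have : 0 < w ^ S.card := by positivity
      split_ifs <;> positivity
    refine le_trans ?_ (Finset.single_le_sum hnn hA)
    have hp : 0 < w ^ S.card := by positivity
    by_cases h0 : (A ∩ S).card = 0
    · rw [if_pos h0]; split_ifs <;> linarith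
    · have h1 : s ≤ (A ∩ S).card := by
        by_contra h2
        exact hbad ⟨Nat.pos_of_ne_zero h0, not_le.1 h2⟩
      rw [if_neg h0, if_pos h1]; linarith
  have hfin : (1 + w) ^ V.card ≤ F.card * (2 * (1 + w) ^ (V.card - n)) := by
    rw [← hsum]
    refine hcover.trans ?_
    rw [← nsmul_eq_mul]
    apply Finset.sum_le_card_nsmul
    intro A hA
    have := hzero A hA
    have := htail V A (hAV A hA) (hF A hA)
    linarith
  have hpow : (1 + w) ^ V.card = (1 + w) ^ n * (1 + w) ^ (V.card - n) := by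
    rw [← pow_add]; congr 1; omega
  rw [hpow] at hfin
  have hpos : 0 < (1 + w) ^ (V.card - n) := by positivity
  have : (1 + w) ^ n ≤ F.card * 2 := by
    have h3 : (1 + w) ^ n * (1 + w) ^ (V.card - n) ≤ (F.card * 2) * (1 + w) ^ (V.card - n) := by
      linarith
    exact le_of_mul_le_mul_right h3 hpos
  linarith

/-- the tail bound with the Chernoff parameter -/
theorem tail_chernoff {n s : ℕ} {w z : ℝ} (hw : 0 < w) (hz : 1 ≤ z)
    (h : (1 + w * z) ^ n ≤ z ^ s) (V A : Finset ℕ) (hA : A ⊆ V) (hAn : A.card = n) :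
    ∑ S ∈ V.powerset with s ≤ (A ∩ S).card, w ^ S.card ≤ (1 + w) ^ (V.card - n) := by
  have h1 := sum_weight V A hA (w * z) w
  rw [hAn] at h1
  have hz0 : 0 < z := by linarith
  have hzs : 0 < z ^ s := by positivity
  have h2 : z ^ s * ∑ S ∈ V.powerset with s ≤ (A ∩ S).card, w ^ S.card
      ≤ (1 + w * z) ^ n * (1 + w) ^ (V.card - n) := by
    rw [← h1, Finset.mul_sum, Finset.sum_filter]
    apply Finset.sum_le_sum
    intro S _
    rw [prod_weight]
    split_ifs with hS
    · have h3 : (S \ A).card + (A ∩ S).card = S.card := by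
        rw [inter_comm]; exact card_sdiff_add_card_inter S A
      rw [← h3, pow_add, mul_pow]
      have h4 : z ^ s ≤ z ^ (A ∩ S).card := pow_le_pow_right₀ hz hS
      have h5 : 0 < w ^ (S \ A).card := by positivity
      have h6 : 0 < w ^ (A ∩ S).card := by positivity
      calc z ^ s * (w ^ (S \ A).card * w ^ (A ∩ S).card)
          ≤ z ^ (A ∩ S).card * (w ^ (S \ A).card * w ^ (A ∩ S).card) := by gcongr
        _ = _ := by ring
    · positivity
  have h7 : (1 + w * z) ^ n * (1 + w) ^ (V.card - n) ≤ z ^ s * (1 + w) ^ (V.card - n) := by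
    gcongr
  exact le_of_mul_le_mul_left (h2.trans h7) hzs

/-- the tail bound for `s = n` -/
theorem tail_eq {n : ℕ} (V A : Finset ℕ) (hA : A ⊆ V) (hAn : A.card = n) :
    ∑ S ∈ V.powerset with n ≤ (A ∩ S).card, (1 : ℝ) ^ S.card ≤ (1 + 1) ^ (V.card - n) := by
  simp only [one_pow]
  rw [Finset.sum_const, nsmul_eq_mul, mul_one]
  have h1 : (V.powerset.filter (fun S => n ≤ (A ∩ S).card)).card ≤ (V \ A).powerset.card := by
    apply Finset.card_le_card_of_injOn (fun S => S \ A)
    · intro S hS
      rw [mem_coe, mem_filter, mem_powerset] at hS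
      rw [mem_coe, mem_powerset]
      exact sdiff_subset_sdiff hS.1 (Subset.refl _)
    · intro S hS T hT hST
      rw [mem_coe, mem_filter] at hS hT
      have hsub : ∀ S : Finset ℕ, n ≤ (A ∩ S).card → A ⊆ S := by
        intro S h
        have h2 : A ∩ S = A := by
          apply eq_of_subset_of_card_le inter_subset_left
          rw [hAn]; exact h
        exact h2 ▸ inter_subset_right
      have hS' := hsub S hS.2
      have hT' := hsub T hT.2
      simp only at hST
      rw [← sdiff_union_of_subset hS', hST, sdiff_union_of_subset hT']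
  rw [card_powerset, card_sdiff_of_subset hA, hAn] at h1
  have : ((V.powerset.filter (fun S => n ≤ (A ∩ S).card)).card : ℝ) ≤ ((2 ^ (V.card - n) : ℕ) : ℝ) := by
    exact_mod_cast h1
  push_cast at this
  norm_num
  exact this

theorem lower_bound {n s : ℕ} (h2 : 1 ≤ s) (hs : s ≤ n) {F : Finset (Finset ℕ)}
    (hF : ∀ A ∈ F, A.card = n) (hB : ¬ HasB s F) : W n s / 2 ≤ F.card := by
  have hn0 : (0 : ℝ) < n := by exact_mod_cast (by omega : 0 < n)
  have hs0 : (0 : ℝ) < s := by exact_mod_cast (by omega : 0 < s)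
  unfold W
  rcases eq_or_lt_of_le hs with rfl | hlt
  · have h1 : om s s = 1 := by
      unfold om
      rw [div_self hs0.ne', sub_self, sub_self, zero_div, Real.rpow_zero, mul_one]
    rw [h1]
    exact lower_of hF hB one_pos (fun V A hA hAn => tail_eq V A hA hAn)
  · have hlt' : (s : ℝ) < n := by exact_mod_cast hlt
    set a : ℝ := (s : ℝ) / n with ha
    have ha0 : 0 < a := by positivity
    have ha1 : a < 1 := by rw [ha, div_lt_one hn0]; exact hlt'
    have h1a : 0 < 1 - a := by linarith
    have hom : om n s = a * (1 - a) ^ (((n : ℝ) - s) / s) := rfl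
    have hw : 0 < om n s := by rw [hom]; positivity
    set z : ℝ := (1 - a) ^ (-((n : ℝ) / s)) with hz
    have hz1 : 1 ≤ z := by
      rw [hz, Real.rpow_neg h1a.le]
      apply (one_le_inv₀ (by positivity)).2
      exact Real.rpow_le_one h1a.le (by linarith) (by positivity)
    have hwz : om n s * z = a / (1 - a) := by
      rw [hom, hz, mul_assoc, ← Real.rpow_add h1a]
      have : ((n : ℝ) - s) / s + -((n : ℝ) / s) = -1 := by field_simp; ring
      rw [this, Real.rpow_neg_one]
      rfl
    have h1wz : 1 + om n s * z = (1 - a)⁻¹ := by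
      rw [hwz]; field_simp; ring
    have hkey : (1 + om n s * z) ^ n ≤ z ^ s := by
      rw [h1wz, hz, ← Real.rpow_natCast _ s, ← Real.rpow_mul h1a.le]
      have : -((n : ℝ) / s) * (s : ℝ) = -(n : ℝ) := by field_simp
      rw [this, Real.rpow_neg h1a.le, Real.rpow_natCast, inv_pow]
    exact lower_of hF hB hw (fun V A hA hAn => tail_chernoff hw hz1 hkey V A hA hAn)

end Pool.Agent.PropB65
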