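import Pool.Agent.Lib_helper65.PropB.Cover
import Pool.Agent.Lib_helper65.PropB.Lower

/-!
The upper bound for `m(n,s)`: random families.
-/

namespace Pool.Agent.PropB65

open Finset

/-- mode of the binomial distribution -/
theorem mode_up {n s j : ℕ} (hs : s ≤ n) (hj : j < s) :
    n.choose j * s ^ j * (n - s) ^ (n - j) ≤ n.choose (j + 1) * s ^ (j + 1) * (n - s) ^ (n - (j + 1)) := by
  have h1 := Nat.choose_succ_right_eq n j
  have h2 : n - j = (n - (j + 1)) + 1 := by omega
  rw [h2, pow_succ, pow_succ]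
  have h3 : (n - s) * (j + 1) ≤ s * (n - j) := by
    obtain ⟨d, rfl⟩ : ∃ d, s = j + 1 + d := ⟨s - (j + 1), by omega⟩
    obtain ⟨e, rfl⟩ : ∃ e, n = j + 1 + d + e := ⟨n - (j + 1 + d), by omega⟩
    have e1 : j + 1 + d + e - (j + 1 + d) = e := by omega
    have e2 : j + 1 + d + e - j = 1 + d + e := by omega
    rw [e1, e2]
    nlinarith [Nat.zero_le (j * d), Nat.zero_le (d * e), Nat.zero_le (j * e)]
  have h4 : (n.choose j * (n - s)) * (j + 1) ≤ (n.choose (j + 1) * s) * (j + 1) := by
    calc (n.choose j * (n - s)) * (j + 1) = n.choose j * ((n - s) * (j + 1)) := by ring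
      _ ≤ n.choose j * (s * (n - j)) := Nat.mul_le_mul_left _ h3
      _ = (n.choose j * (n - j)) * s := by ring
      _ = (n.choose (j + 1) * (j + 1)) * s := by rw [h1]
      _ = _ := by ring
  have h5 : n.choose j * (n - s) ≤ n.choose (j + 1) * s := Nat.le_of_mul_le_mul_right h4 (by omega)
  calc n.choose j * s ^ j * ((n - s) ^ (n - (j + 1)) * (n - s))
      = (n.choose j * (n - s)) * (s ^ j * (n - s) ^ (n - (j + 1))) := by ring
    _ ≤ (n.choose (j + 1) * s) * (s ^ j * (n - s) ^ (n - (j + 1))) := Nat.mul_le_mul_right _ h5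
    _ = _ := by ring

theorem mode_down {n s j : ℕ} (hs : s ≤ n) (hj : s ≤ j) (hjn : j < n) :
    n.choose (j + 1) * s ^ (j + 1) * (n - s) ^ (n - (j + 1)) ≤ n.choose j * s ^ j * (n - s) ^ (n - j) := by
  have h1 := Nat.choose_succ_right_eq n j
  have h2 : n - j = (n - (j + 1)) + 1 := by omega
  rw [h2, pow_succ, pow_succ]
  have h3 : s * (n - j) ≤ (n - s) * (j + 1) := by
    obtain ⟨d, rfl⟩ : ∃ d, j = s + d := ⟨j - s, by omega⟩
    obtain ⟨e, rfl⟩ : ∃ e, n = s + d + 1 + e := ⟨n - (s + d + 1), by omega⟩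
    have e1 : s + d + 1 + e - s = d + 1 + e := by omega
    have e2 : s + d + 1 + e - (s + d) = 1 + e := by omega
    rw [e1, e2]
    nlinarith [Nat.zero_le (s * d), Nat.zero_le (d * e), Nat.zero_le (s * e), Nat.zero_le (d * d)]
  have h4 : (n.choose (j + 1) * s) * (j + 1) ≤ (n.choose j * (n - s)) * (j + 1) := by
    calc (n.choose (j + 1) * s) * (j + 1) = (n.choose (j + 1) * (j + 1)) * s := by ring
      _ = (n.choose j * (n - j)) * s := by rw [h1]
      _ = n.choose j * (s * (n - j)) := by ring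
      _ ≤ n.choose j * ((n - s) * (j + 1)) := Nat.mul_le_mul_left _ h3
      _ = _ := by ring
  have h5 : n.choose (j + 1) * s ≤ n.choose j * (n - s) := Nat.le_of_mul_le_mul_right h4 (by omega)
  calc n.choose (j + 1) * (s ^ j * s) * (n - s) ^ (n - (j + 1))
      = (n.choose (j + 1) * s) * (s ^ j * (n - s) ^ (n - (j + 1))) := by ring
    _ ≤ (n.choose j * (n - s)) * (s ^ j * (n - s) ^ (n - (j + 1))) := Nat.mul_le_mul_right _ h5
    _ = _ := by ring

theorem mode_le {n s j : ℕ} (hs : s ≤ n) (hj : j ≤ n) :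
    n.choose j * s ^ j * (n - s) ^ (n - j) ≤ n.choose s * s ^ s * (n - s) ^ (n - s) := by
  rcases le_or_gt j s with h | h
  · obtain ⟨d, hd⟩ : ∃ d, s = j + d := ⟨s - j, by omega⟩
    induction d generalizing j with
    | zero =>
      have : j = s := by omega
      rw [this]
    | succ d ih =>
      refine (mode_up hs (by omega)).trans ?_
      exact ih (by omega) (by omega) (by omega)
  · obtain ⟨d, hd⟩ : ∃ d, j = s + d := ⟨j - s, by omega⟩
    subst hd
    clear h
    induction d with
    | zero => simp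
    | succ d ih =>
      refine le_trans ?_ (ih (by omega))
      exact mode_down (j := s + d) hs (Nat.le_add_right s d) (by omega)

theorem mode_bound {n s : ℕ} (hs : s ≤ n) :
    n ^ n ≤ (n + 1) * (n.choose s * s ^ s * (n - s) ^ (n - s)) := by
  have h1 : (s + (n - s)) ^ n = ∑ j ∈ range (n + 1), s ^ j * (n - s) ^ (n - j) * n.choose j :=
    add_pow s (n - s) n
  have h2 : s + (n - s) = n := by omega
  rw [h2] at h1
  conv_lhs => rw [h1]
  calc ∑ j ∈ range (n + 1), s ^ j * (n - s) ^ (n - j) * n.choose j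
      ≤ ∑ _j ∈ range (n + 1), n.choose s * s ^ s * (n - s) ^ (n - s) := by
        apply Finset.sum_le_sum
        intro j hj
        rw [mem_range] at hj
        calc s ^ j * (n - s) ^ (n - j) * n.choose j = n.choose j * s ^ j * (n - s) ^ (n - j) := by ring
          _ ≤ _ := mode_le hs (by omega)
    _ = _ := by rw [sum_const, card_range, smul_eq_mul]

theorem om_le_one {n s : ℕ} (hs : s ≤ n) : om n s ≤ 1 := by
  unfold om
  have h1 : (s : ℝ) / n ≤ 1 := div_le_one_of_le₀ (by exact_mod_cast hs) (by positivity)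
  have h0 : 0 ≤ (s : ℝ) / n := by positivity
  have h2 : 0 ≤ 1 - (s : ℝ) / n := by linarith
  have h3 : (1 - (s : ℝ) / n) ^ (((n : ℝ) - s) / s) ≤ 1 := by
    apply Real.rpow_le_one h2 (by linarith)
    have : (s : ℝ) ≤ n := by exact_mod_cast hs
    apply div_nonneg (by linarith) (by positivity)
  have h4 : 0 ≤ (1 - (s : ℝ) / n) ^ (((n : ℝ) - s) / s) := by positivity
  nlinarith

/-- `ω ≥ (s/n)/e` -/
theorem om_ge {n s : ℕ} (hs1 : 1 ≤ s) (hs : s ≤ n) : ((s : ℝ) / n) * Real.exp (-1) ≤ om n s := by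
  have hn0 : (0 : ℝ) < n := by exact_mod_cast (by omega : 0 < n)
  have hs0 : (0 : ℝ) < s := by exact_mod_cast hs1
  unfold om
  apply mul_le_mul_of_nonneg_left _ (by positivity)
  rcases eq_or_lt_of_le hs with rfl | hlt
  · rw [div_self hs0.ne', sub_self, sub_self, zero_div, Real.rpow_zero]
    exact Real.exp_le_one_iff.2 (by norm_num)
  · have hlt' : (s : ℝ) < n := by exact_mod_cast hlt
    set a : ℝ := (s : ℝ) / n with ha
    have ha0 : 0 < a := by positivity
    have ha1 : a < 1 := by rw [ha, div_lt_one hn0]; exact hlt'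
    have h1a : 0 < 1 - a := by linarith
    rw [Real.rpow_def_of_pos h1a]
    apply Real.exp_le_exp.2
    have h1 := Real.one_sub_inv_le_log_of_pos h1a
    have h2 : 1 - (1 - a)⁻¹ = -(a / (1 - a)) := by field_simp; ring
    rw [h2] at h1
    have h3 : ((n : ℝ) - s) / s = (1 - a) / a := by rw [ha]; field_simp
    rw [h3]
    have h4 : 0 < (1 - a) / a := by positivity
    calc (-1 : ℝ) = -(a / (1 - a)) * ((1 - a) / a) := by field_simp
      _ ≤ Real.log (1 - a) * ((1 - a) / a) := by gcongr

/-- `ω ≤ ((s/n)/e) e^{s/n}` -/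
theorem om_le {n s : ℕ} (hs1 : 1 ≤ s) (hs : s ≤ n) :
    om n s ≤ ((s : ℝ) / n) * Real.exp (-1 + (s : ℝ) / n) := by
  have hn0 : (0 : ℝ) < n := by exact_mod_cast (by omega : 0 < n)
  have hs0 : (0 : ℝ) < s := by exact_mod_cast hs1
  unfold om
  apply mul_le_mul_of_nonneg_left _ (by positivity)
  rcases eq_or_lt_of_le hs with rfl | hlt
  · rw [div_self hs0.ne', sub_self, sub_self, zero_div, Real.rpow_zero]
    norm_num
  · have hlt' : (s : ℝ) < n := by exact_mod_cast hlt
    set a : ℝ := (s : ℝ) / n with ha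
    have ha0 : 0 < a := by positivity
    have ha1 : a < 1 := by rw [ha, div_lt_one hn0]; exact hlt'
    have h1a : 0 < 1 - a := by linarith
    rw [Real.rpow_def_of_pos h1a]
    apply Real.exp_le_exp.2
    have h1 := Real.log_le_sub_one_of_pos h1a
    have h3 : ((n : ℝ) - s) / s = (1 - a) / a := by rw [ha]; field_simp
    rw [h3]
    have h4 : 0 < (1 - a) / a := by positivity
    calc Real.log (1 - a) * ((1 - a) / a) ≤ (-a) * ((1 - a) / a) := by
          gcongr; linarith
      _ = -1 + a := by field_simp; ring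

theorem om_pow {n s : ℕ} (hs1 : 1 ≤ s) (hs : s ≤ n) :
    om n s ^ s = ((s : ℝ) / n) ^ s * (1 - (s : ℝ) / n) ^ (n - s) := by
  have hn0 : (0 : ℝ) < n := by exact_mod_cast (by omega : 0 < n)
  have hs0 : (0 : ℝ) < s := by exact_mod_cast hs1
  have h1 : (s : ℝ) / n ≤ 1 := div_le_one_of_le₀ (by exact_mod_cast hs) (by positivity)
  have h2 : 0 ≤ 1 - (s : ℝ) / n := by linarith
  unfold om
  rw [mul_pow, ← Real.rpow_natCast ((1 - (s : ℝ) / n) ^ (((n : ℝ) - s) / s)) s,
    ← Real.rpow_mul h2]
  congr 1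
  have : ((n : ℝ) - s) / s * s = ((n - s : ℕ) : ℝ) := by
    rw [Nat.cast_sub hs]; field_simp
  rw [this, Real.rpow_natCast]

/-- number of `n`-subsets missing `S` -/
theorem count_zero {N n : ℕ} {S : Finset ℕ} (hS : S ⊆ range N) :
    (((range N).powersetCard n).filter (fun A => (A ∩ S).card = 0)).card
      = (N - S.card).choose n := by
  have : ((range N).powersetCard n).filter (fun A => (A ∩ S).card = 0)
      = (range N \ S).powersetCard n := by
    ext A
    simp only [mem_filter, mem_powersetCard, card_eq_zero]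
    constructor
    · rintro ⟨⟨h1, h2⟩, h3⟩
      refine ⟨fun x hx => mem_sdiff.2 ⟨h1 hx, fun hxS => ?_⟩, h2⟩
      have : x ∈ A ∩ S := mem_inter.2 ⟨hx, hxS⟩
      rw [h3] at this
      simp at this
    · rintro ⟨h1, h2⟩
      refine ⟨⟨fun x hx => (mem_sdiff.1 (h1 hx)).1, h2⟩, ?_⟩
      ext x
      simp only [mem_inter, notMem_empty, iff_false, not_and]
      intro hx
      exact (mem_sdiff.1 (h1 hx)).2
  rw [this, card_powersetCard, card_sdiff_of_subset hS, card_range]

/-- number of `n`-subsets meeting `S` in at least `s` points -/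
theorem count_many {N n s k : ℕ} (hsn : s ≤ n) {S : Finset ℕ} (hS : S ⊆ range N) (hk : k ≤ S.card) :
    k.choose s * (N - k).choose (n - s)
      ≤ (((range N).powersetCard n).filter (fun A => s ≤ (A ∩ S).card)).card := by
  obtain ⟨T, hTS, hT⟩ := exists_subset_card_eq hk
  have hTN : T ⊆ range N := hTS.trans hS
  have h1 : k.choose s * (N - k).choose (n - s)
      = ((T.powersetCard s) ×ˢ ((range N \ T).powersetCard (n - s))).card := by
    rw [card_product, card_powersetCard, card_powersetCard, card_sdiff_of_subset hTN, hT, card_range]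
  rw [h1]
  apply Finset.card_le_card_of_injOn (fun P => P.1 ∪ P.2)
  · rintro ⟨A, B⟩ h
    rw [mem_coe, mem_product, mem_powersetCard, mem_powersetCard] at h
    obtain ⟨⟨hA, hAc⟩, hB, hBc⟩ := h
    simp only at hA hAc hB hBc
    have hdis : Disjoint A B := by
      rw [Finset.disjoint_left]
      intro x hxA hxB
      exact (mem_sdiff.1 (hB hxB)).2 (hA hxA)
    rw [mem_coe, mem_filter, mem_powersetCard]
    refine ⟨⟨?_, ?_⟩, ?_⟩
    · apply union_subset (hA.trans hTN)
      exact hB.trans sdiff_subset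
    · rw [card_union_of_disjoint hdis, hAc, hBc]; omega
    · rw [← hAc]
      apply card_le_card
      intro x hx
      exact mem_inter.2 ⟨mem_union_left _ hx, hTS (hA hx)⟩
  · rintro ⟨A, B⟩ h ⟨A', B'⟩ h' heq
    rw [mem_coe, mem_product, mem_powersetCard, mem_powersetCard] at h h'
    obtain ⟨⟨hA, hAc⟩, hB, hBc⟩ := h
    obtain ⟨⟨hA', hAc'⟩, hB', hBc'⟩ := h'
    simp only at hA hAc hB hBc hA' hAc' hB' hBc' heq
    have key : ∀ A B : Finset ℕ, A ⊆ T → B ⊆ range N \ T → (A ∪ B) ∩ T = A ∧ (A ∪ B) \ T = B := by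
      intro A B hA hB
      constructor
      · ext x
        simp only [mem_inter, mem_union]
        constructor
        · rintro ⟨h1 | h1, h2⟩
          · exact h1
          · exact absurd h2 (mem_sdiff.1 (hB h1)).2
        · intro h1
          exact ⟨Or.inl h1, hA h1⟩
      · ext x
        simp only [mem_sdiff, mem_union]
        constructor
        · rintro ⟨h1 | h1, h2⟩
          · exact absurd (hA h1) h2
          · exact h1
        · intro h1
          exact ⟨Or.inr h1, (mem_sdiff.1 (hB h1)).2⟩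
    have k1 := key A B hA hB
    have k2 := key A' B' hA' hB'
    rw [heq] at k1
    rw [Prod.mk.injEq]
    exact ⟨k1.1.symm.trans k2.1, k1.2.symm.trans k2.2⟩

end Pool.Agent.PropB65
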