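import Pool.Agent.Lib_helper65.PropB.Upper

/-!
The upper bound for `m(n,s)`: existence of the family.
-/

namespace Pool.Agent.PropB65

open Finset

variable {n s : ℕ}

theorem one_le_W (hs : s ≤ n) : 1 ≤ W n s := by
  unfold W
  apply one_le_pow₀
  linarith [om_nonneg hs]

/-- each `S` is bad for a large proportion of the `n`-sets -/
theorem bad_fraction (hn : 2 ≤ n) (hs1 : 1 ≤ s) (hs : s ≤ n) {S : Finset ℕ}
    (hS : S ⊆ range (16 * n ^ 2)) :
    (1 / (2 * (n + 1) * W n s)) * (((range (16 * n ^ 2)).powersetCard n).card : ℝ) ≤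
      ((((range (16 * n ^ 2)).powersetCard n).filter
        (fun A => ¬ (0 < (A ∩ S).card ∧ (A ∩ S).card < s))).card : ℝ) := by
  set N : ℕ := 16 * n ^ 2 with hN
  have hn0 : (0 : ℝ) < n := by exact_mod_cast (by omega : 0 < n)
  have hn2 : (2 : ℝ) ≤ n := by exact_mod_cast hn
  have hs0 : (0 : ℝ) < s := by exact_mod_cast hs1
  have hsn : (s : ℝ) ≤ n := by exact_mod_cast hs
  have hNr : (N : ℝ) = 16 * (n : ℝ) ^ 2 := by rw [hN]; push_cast; ring
  have hN0 : (0 : ℝ) < N := by rw [hNr]; positivity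
  set w := om n s with hw
  have hw1 : w ≤ 1 := om_le_one hs
  have hwge := om_ge hs1 hs
  have hw0 : 0 < w := lt_of_lt_of_le (by positivity) hwge
  have h1w : 0 < 1 + w := by linarith
  set p : ℝ := w / (1 + w) with hp
  have hp0 : 0 < p := by positivity
  have hp1 : p ≤ 1 / 2 := by
    rw [hp, div_le_iff₀ h1w]; linarith
  have h1p : 1 - p = 1 / (1 + w) := by rw [hp]; field_simp; ring
  have h1p2 : 1 / 2 ≤ 1 - p := by linarith
  have hWp : (1 - p) ^ n = 1 / W n s := by
    rw [h1p, one_div_pow]; rfl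
  have hW0 : 0 < W n s := lt_of_lt_of_le one_pos (one_le_W hs)
  set k : ℕ := ⌊p * N⌋₊ with hk
  have hk1 : (k : ℝ) ≤ p * N := Nat.floor_le (by positivity)
  have hk2 : p * N < k + 1 := Nat.lt_floor_add_one _
  have hkN : k ≤ N := by
    have : (k : ℝ) ≤ N := by nlinarith
    exact_mod_cast this
  -- `p N ≥ 2 s n`
  have hpN : 2 * (s : ℝ) * n ≤ p * N := by
    have he : Real.exp (-1) ≥ 1 / 4 := by
      rw [Real.exp_neg]
      have := Real.exp_one_lt_d9
      rw [ge_iff_le, one_div]
      apply inv_anti₀ (Real.exp_pos 1)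
      linarith
    have h3 : (s : ℝ) / n * (1 / 4) ≤ w := le_trans (by gcongr) hwge
    have h4 : (s : ℝ) / n * (1 / 8) ≤ p := by
      rw [hp, le_div_iff₀ h1w]
      have : 0 < (s : ℝ) / n := by positivity
      nlinarith
    rw [hNr]
    calc 2 * (s : ℝ) * n = ((s : ℝ) / n * (1 / 8)) * (16 * (n : ℝ) ^ 2) := by field_simp; ring
      _ ≤ p * (16 * (n : ℝ) ^ 2) := by gcongr
  have hcardY : ((range N).powersetCard n).card = N.choose n := by
    rw [card_powersetCard, card_range]
  have hchooseN : (N.choose n : ℝ) ≤ (N : ℝ) ^ n / n.factorial := Nat.choose_le_pow_div n N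
  rw [hcardY]
  have hbern1 : (1 : ℝ) / 2 ≤ (1 - 1 / (2 * n)) ^ n := by
    have h := one_add_mul_le_pow (a := -(1 / (2 * (n : ℝ)))) (by
      have : 1 / (2 * (n : ℝ)) ≤ 1 := by
        rw [div_le_one (by positivity)]; linarith
      linarith) n
    have e1 : 1 + (n : ℝ) * -(1 / (2 * n)) = 1 / 2 := by field_simp; ring
    rw [e1, ← sub_eq_add_neg] at h
    exact h
  have h12n : 0 ≤ 1 - 1 / (2 * (n : ℝ)) := by
    have : 1 / (2 * (n : ℝ)) ≤ 1 := by
      rw [div_le_one (by positivity)]; linarith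
    linarith
  -- the factor `1 - p - n/N`
  have hfac : (1 - p) * (1 - 1 / (2 * n)) ≤ 1 - p - n / N := by
    have e2 : (n : ℝ) / N = 1 / (16 * n) := by rw [hNr]; field_simp
    rw [e2]
    have h5 : (1 - p) * (1 / (2 * n)) ≥ 1 / (16 * n) := by
      calc (1 - p) * (1 / (2 * n)) ≥ (1 / 2) * (1 / (2 * n)) := by gcongr
        _ = 1 / (4 * n) := by ring
        _ ≥ 1 / (16 * n) := by gcongr; norm_num
    linarith
  have hfacN : N * ((1 - p) * (1 - 1 / (2 * n))) ≤ N - p * N - n := by
    calc N * ((1 - p) * (1 - 1 / (2 * n))) ≤ N * (1 - p - n / N) := by gcongr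
      _ = N - p * N - n := by field_simp
  rcases le_or_gt S.card k with hSk | hSk
  · -- few elements: many sets avoid `S`
    have hsub : ((range N).powersetCard n).filter (fun A => (A ∩ S).card = 0) ⊆
        ((range N).powersetCard n).filter
          (fun A => ¬ (0 < (A ∩ S).card ∧ (A ∩ S).card < s)) := by
      intro A hA
      rw [mem_filter] at hA ⊢
      refine ⟨hA.1, ?_⟩
      rw [hA.2]; simp
    have h6 : ((N - k).choose n : ℝ) ≤ ((((range N).powersetCard n).filter
        (fun A => ¬ (0 < (A ∩ S).card ∧ (A ∩ S).card < s))).card : ℝ) := by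
      have h7 : (N - k).choose n ≤ (N - S.card).choose n := Nat.choose_le_choose n (by omega)
      rw [← count_zero hS] at h7
      exact_mod_cast h7.trans (card_le_card hsub)
    refine le_trans ?_ h6
    have h8 := Nat.pow_le_choose (α := ℝ) n (N - k)
    refine le_trans ?_ h8
    have h9 : (N : ℝ) * ((1 - p) * (1 - 1 / (2 * n))) ≤ ((N - k + 1 - n : ℕ) : ℝ) := by
      have h10 : (N : ℝ) - k + 1 - n ≤ ((N - k + 1 - n : ℕ) : ℝ) := by
        have : N + 1 ≤ (N - k + 1 - n) + n + k := by omega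
        have h11 : ((N + 1 : ℕ) : ℝ) ≤ (((N - k + 1 - n) + n + k : ℕ) : ℝ) := by exact_mod_cast this
        push_cast at h11
        linarith
      linarith
    calc 1 / (2 * (n + 1) * W n s) * (N.choose n : ℝ)
        ≤ (1 / 2) * (1 / W n s) * ((N : ℝ) ^ n / n.factorial) := by
          have h12 : 1 / (2 * (n + 1) * W n s) ≤ (1 / 2) * (1 / W n s) := by
            rw [one_div_mul_one_div]
            apply one_div_le_one_div_of_le (by positivity)
            nlinarith
          gcongr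
      _ ≤ (1 - 1 / (2 * n)) ^ n * (1 - p) ^ n * ((N : ℝ) ^ n / n.factorial) := by
          rw [hWp]; gcongr
      _ = ((N : ℝ) * ((1 - p) * (1 - 1 / (2 * n)))) ^ n / n.factorial := by
          rw [mul_pow, mul_pow]; ring
      _ ≤ ((N - k + 1 - n : ℕ) : ℝ) ^ n / n.factorial := by
          have : 0 ≤ (N : ℝ) * ((1 - p) * (1 - 1 / (2 * n))) := by
            apply mul_nonneg hN0.le (mul_nonneg (by linarith) h12n)
          gcongr
  · -- many elements: many sets meet `S` in at least `s` points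
    have hsub : ((range N).powersetCard n).filter (fun A => s ≤ (A ∩ S).card) ⊆
        ((range N).powersetCard n).filter
          (fun A => ¬ (0 < (A ∩ S).card ∧ (A ∩ S).card < s)) := by
      intro A hA
      rw [mem_filter] at hA ⊢
      refine ⟨hA.1, fun h => ?_⟩
      exact absurd h.2 (not_lt.2 hA.2)
    have h6 : ((k.choose s * (N - k).choose (n - s) : ℕ) : ℝ) ≤
        ((((range N).powersetCard n).filter
        (fun A => ¬ (0 < (A ∩ S).card ∧ (A ∩ S).card < s))).card : ℝ) := by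
      exact_mod_cast (count_many hs hS hSk.le).trans (card_le_card hsub)
    refine le_trans ?_ h6
    push_cast
    have h8 := Nat.pow_le_choose (α := ℝ) s k
    have h8' := Nat.pow_le_choose (α := ℝ) (n - s) (N - k)
    have h9 : (N : ℝ) * ((1 - p) * (1 - 1 / (2 * n))) ≤ ((N - k + 1 - (n - s) : ℕ) : ℝ) := by
      have h10 : (N : ℝ) - k + 1 - n ≤ ((N - k + 1 - (n - s) : ℕ) : ℝ) := by
        have : N + 1 ≤ (N - k + 1 - (n - s)) + n + k := by omega
        have h11 : ((N + 1 : ℕ) : ℝ) ≤ (((N - k + 1 - (n - s)) + n + k : ℕ) : ℝ) := by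
          exact_mod_cast this
        push_cast at h11
        linarith
      linarith
    have h9' : (N : ℝ) * (p * (1 - 1 / (2 * n))) ≤ ((k + 1 - s : ℕ) : ℝ) := by
      have h10 : (k : ℝ) + 1 - s ≤ ((k + 1 - s : ℕ) : ℝ) := by
        have : k + 1 ≤ (k + 1 - s) + s := by omega
        have h11 : ((k + 1 : ℕ) : ℝ) ≤ (((k + 1 - s) + s : ℕ) : ℝ) := by exact_mod_cast this
        push_cast at h11
        linarith
      have h12 : (s : ℝ) ≤ p * N / (2 * n) := by
        rw [le_div_iff₀ (by positivity)]; linarith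
      have h13 : (N : ℝ) * (p * (1 - 1 / (2 * n))) = p * N - p * N / (2 * n) := by ring
      rw [h13]; linarith
    have hmode : 1 / ((n : ℝ) + 1) ≤ (n.choose s : ℝ) * w ^ s := by
      have h14 := mode_bound hs
      have h15 : (n : ℝ) ^ n ≤ (n + 1) * (n.choose s * (s : ℝ) ^ s * ((n : ℝ) - s) ^ (n - s)) := by
        have h16 : ((n ^ n : ℕ) : ℝ) ≤ (((n + 1) * (n.choose s * s ^ s * (n - s) ^ (n - s)) : ℕ) : ℝ) := by
          exact_mod_cast h14
        push_cast [Nat.cast_sub hs] at h16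
        exact h16
      rw [hw, om_pow hs1 hs, div_le_iff₀ (by positivity)]
      have h17 : ((s : ℝ) / n) ^ s * (1 - (s : ℝ) / n) ^ (n - s)
          = (s : ℝ) ^ s * ((n : ℝ) - s) ^ (n - s) / (n : ℝ) ^ n := by
        have h18 : 1 - (s : ℝ) / n = ((n : ℝ) - s) / n := by field_simp
        rw [h18, div_pow, div_pow, div_mul_div_comm, ← pow_add]
        congr 2
        omega
      rw [h17]
      have h19 : (0 : ℝ) < (n : ℝ) ^ n := by positivity
      rw [← sub_nonneg]
      have h20 : (n.choose s : ℝ) * ((s : ℝ) ^ s * ((n : ℝ) - s) ^ (n - s) / (n : ℝ) ^ n) * (n + 1) - 1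
          = ((n + 1) * (n.choose s * (s : ℝ) ^ s * ((n : ℝ) - s) ^ (n - s)) - (n : ℝ) ^ n)
            / (n : ℝ) ^ n := by field_simp
      rw [h20]
      apply div_nonneg _ h19.le
      linarith
    have hpw : p ^ s * (1 - p) ^ (n - s) = (1 - p) ^ n * w ^ s := by
      have : p = (1 - p) * w := by rw [h1p, hp]; ring
      have h21 : (1 - p) ^ n = (1 - p) ^ s * (1 - p) ^ (n - s) := by
        rw [← pow_add]; congr 1; omega
      rw [h21]
      conv_lhs => rw [this]
      rw [mul_pow]
      have e3 : 1 - (1 - p) * w = 1 - p := by rw [← this]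
      rw [e3]
      ring
    have hchoose_fac : (n.choose s : ℝ) / n.factorial = 1 / (s.factorial * (n - s).factorial) := by
      have h22 := Nat.choose_mul_factorial_mul_factorial hs
      have h23 : (n.choose s : ℝ) * s.factorial * (n - s).factorial = n.factorial := by
        exact_mod_cast h22
      rw [← h23]
      have : (0 : ℝ) < n.choose s := by exact_mod_cast Nat.choose_pos hs
      field_simp
    calc 1 / (2 * (n + 1) * W n s) * (N.choose n : ℝ)
        ≤ 1 / (2 * (n + 1) * W n s) * ((N : ℝ) ^ n / n.factorial) := by gcongr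
      _ = (1 / 2) * (1 / W n s) * (1 / ((n : ℝ) + 1)) * ((N : ℝ) ^ n / n.factorial) := by
          field_simp
      _ ≤ (1 - 1 / (2 * n)) ^ n * (1 - p) ^ n * ((n.choose s : ℝ) * w ^ s)
            * ((N : ℝ) ^ n / n.factorial) := by
          rw [hWp]
          gcongr
      _ = (1 - 1 / (2 * n)) ^ n * (p ^ s * (1 - p) ^ (n - s)) * (N : ℝ) ^ n
            * ((n.choose s : ℝ) / n.factorial) := by rw [hpw]; ring
      _ = (((N : ℝ) * (p * (1 - 1 / (2 * n)))) ^ s / s.factorial) *
            (((N : ℝ) * ((1 - p) * (1 - 1 / (2 * n)))) ^ (n - s) / (n - s).factorial) := by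
          rw [hchoose_fac]
          have h24 : (N : ℝ) ^ n = (N : ℝ) ^ s * (N : ℝ) ^ (n - s) := by
            rw [← pow_add]; congr 1; omega
          have h25 : (1 - 1 / (2 * (n : ℝ))) ^ n
              = (1 - 1 / (2 * (n : ℝ))) ^ s * (1 - 1 / (2 * (n : ℝ))) ^ (n - s) := by
            rw [← pow_add]; congr 1; omega
          rw [h24, h25, mul_pow, mul_pow, mul_pow, mul_pow]
          field_simp
      _ ≤ (((k + 1 - s : ℕ) : ℝ) ^ s / s.factorial) *
            (((N - k + 1 - (n - s) : ℕ) : ℝ) ^ (n - s) / (n - s).factorial) := by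
          have h26 : 0 ≤ (N : ℝ) * (p * (1 - 1 / (2 * n))) :=
            mul_nonneg hN0.le (mul_nonneg hp0.le h12n)
          have h27 : 0 ≤ (N : ℝ) * ((1 - p) * (1 - 1 / (2 * n))) :=
            mul_nonneg hN0.le (mul_nonneg (by linarith) h12n)
          gcongr
      _ ≤ (k.choose s : ℝ) * ((N - k).choose (n - s) : ℝ) := by
          gcongr

/-- existence of a small family without property `B(s)` -/
theorem exists_family (hn : 2 ≤ n) (hs1 : 1 ≤ s) (hs : s ≤ n) :
    ∃ F : Finset (Finset ℕ), (∀ A ∈ F, A.card = n) ∧ ¬ HasB s F ∧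
      (F.card : ℝ) ≤ 65 * (n : ℝ) ^ 3 * W n s := by
  classical
  set N : ℕ := 16 * n ^ 2 with hN
  have hn0 : (0 : ℝ) < n := by exact_mod_cast (by omega : 0 < n)
  have hn2 : (2 : ℝ) ≤ n := by exact_mod_cast hn
  have hNr : (N : ℝ) = 16 * (n : ℝ) ^ 2 := by rw [hN]; push_cast; ring
  have hN0 : (0 : ℝ) < N := by rw [hNr]; positivity
  have hW1 := one_le_W (n := n) (s := s) hs
  have hW0 : 0 < W n s := by linarith
  set q : ℝ := 1 / (2 * (n + 1) * W n s) with hq
  have hq0 : 0 < q := by positivity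
  have hq1 : q ≤ 1 := by
    rw [hq, div_le_one (by positivity)]; nlinarith
  have hYne : ((range N).powersetCard n).Nonempty := by
    rw [powersetCard_nonempty, card_range]
    rw [hN]; nlinarith
  obtain ⟨Y', hY', hcard, hle⟩ := cover (range N).powerset ((range N).powersetCard n)
    (fun S A => ¬ (0 < (A ∩ S).card ∧ (A ∩ S).card < s)) hYne hq1
    (fun S hS => bad_fraction hn hs1 hs (mem_powerset.1 hS)) ⌈(N : ℝ) / q⌉₊
  refine ⟨Y', fun A hA => (mem_powersetCard.1 (hY' hA)).2, ?_, ?_⟩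
  · -- no good set
    rintro ⟨S, hSsub, hS⟩
    have hSN : S ⊆ range N := by
      intro x hx
      have := hSsub hx
      rw [mem_sup] at this
      obtain ⟨A, hA, hxA⟩ := this
      exact (mem_powersetCard.1 (hY' hA)).1 hxA
    have hmem : S ∈ (range N).powerset.filter (fun S => ∀ A ∈ Y',
        ¬ ¬ (0 < (A ∩ S).card ∧ (A ∩ S).card < s)) := by
      rw [mem_filter]
      exact ⟨mem_powerset.2 hSN, fun A hA => not_not.2 (hS A hA)⟩
    have hpos : (1 : ℝ) ≤ (((range N).powerset.filter (fun S => ∀ A ∈ Y',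
        ¬ ¬ (0 < (A ∩ S).card ∧ (A ∩ S).card < s))).card : ℝ) := by
      exact_mod_cast card_pos.2 ⟨S, hmem⟩
    have h1 := hpos.trans hle
    rw [card_powerset, card_range] at h1
    push_cast at h1
    have h2 : (1 - q) ^ ⌈(N : ℝ) / q⌉₊ ≤ Real.exp (-N) := by
      calc (1 - q) ^ ⌈(N : ℝ) / q⌉₊ ≤ (Real.exp (-q)) ^ ⌈(N : ℝ) / q⌉₊ := by
            apply pow_le_pow_left₀ (by linarith)
            exact Real.one_sub_le_exp_neg q
        _ = Real.exp (-(q * ⌈(N : ℝ) / q⌉₊)) := by
            rw [← Real.exp_nat_mul]; congr 1; ring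
        _ ≤ Real.exp (-N) := by
            apply Real.exp_le_exp.2
            apply neg_le_neg
            calc (N : ℝ) = q * (N / q) := by field_simp
              _ ≤ q * ⌈(N : ℝ) / q⌉₊ := by gcongr; exact Nat.le_ceil _
    have h3 : Real.exp (-(N : ℝ)) * 2 ^ N < 1 := by
      rw [Real.exp_neg, ← div_eq_inv_mul, div_lt_one (Real.exp_pos _)]
      have h4 : Real.exp (N : ℝ) = Real.exp 1 ^ N := by
        rw [← Real.exp_nat_mul]; simp
      rw [h4]
      apply pow_lt_pow_left₀ _ (by norm_num)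
      · intro h; rw [h] at hN0; simp at hN0
      · have := Real.exp_one_gt_d9; linarith
    have h5 : (1 - q) ^ ⌈(N : ℝ) / q⌉₊ * 2 ^ N < 1 := by
      calc (1 - q) ^ ⌈(N : ℝ) / q⌉₊ * 2 ^ N ≤ Real.exp (-(N : ℝ)) * 2 ^ N := by gcongr
        _ < 1 := h3
    linarith
  · calc (Y'.card : ℝ) ≤ (⌈(N : ℝ) / q⌉₊ : ℝ) := by exact_mod_cast hcard
      _ ≤ N / q + 1 := (Nat.ceil_lt_add_one (by positivity)).le
      _ = 32 * (n : ℝ) ^ 2 * (n + 1) * W n s + 1 := by
          rw [hq, hNr]; field_simp; ring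
      _ ≤ 65 * (n : ℝ) ^ 3 * W n s := by
          have h6 : (n : ℝ) ^ 2 * (n + 1) ≤ 2 * (n : ℝ) ^ 3 := by nlinarith [sq_nonneg (n : ℝ)]
          have h7 : 1 ≤ (n : ℝ) ^ 3 * W n s := by
            have : (1 : ℝ) ≤ (n : ℝ) ^ 3 := by
              apply one_le_pow₀; linarith
            nlinarith
          nlinarith

end Pool.Agent.PropB65
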